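import Pool.Agent.Q105.FR.Fin

/-!
# `MP_33c96f_co`: proper fractional revival in a tree is between cospectral vertices

The answer to Q1 is no. If `a ≠ b` are vertices of a tree and `exp(iτA) e_a = α e_a + β e_b` with
`α β ≠ 0`, then `dist(a,b)` is odd and `a`, `b` are cospectral.

Idea. Flipping signs on one colour class turns an eigenvector for `θ` into one for `-θ`. At odd
distance this gives `v(a)² = v(b)²` for every eigenvector `v`. At even distance it gives
`exp(iτθ) = ±1` on the support of `a`; then `(π/τ)²` is rational, `α` and `β` are real and rational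
with `α² + β² = 1`, and `β ((A^k)_aa - (A^k)_bb) = 2 α (A^k)_ab`. For `k = dist(a,b)` the last entry
is `1` in a tree, so `c = 2α/β` is an integer with `c² + 4 = (2/β)²` a square, whence `c = 0`.
-/

namespace Pool.Agent.Results.MP_33c96f_co.TreeRevival

open Matrix SimpleGraph

/-- `a` and `b` are cospectral in `G`: the vertex-deleted subgraphs `G ∖ a` and `G ∖ b` have the
same characteristic polynomial. -/
def Cospectral {V : Type*} [Fintype V] [DecidableEq V] (G : SimpleGraph V) [DecidableRel G.Adj]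
    (a b : V) : Prop :=
  ((G.induce {v | v ≠ a}).adjMatrix ℤ).charpoly = ((G.induce {v | v ≠ b}).adjMatrix ℤ).charpoly

/-- Proper fractional revival between `a` and `b`: for some time `τ > 0` the walk matrix
`exp(iτA)` sends `e_a` to `α e_a + β e_b` with `α` and `β` both nonzero. -/
def ProperFR {V : Type*} [Fintype V] [DecidableEq V] (G : SimpleGraph V) [DecidableRel G.Adj]
    (a b : V) : Prop :=
  ∃ τ : ℝ, 0 < τ ∧ ∃ α β : ℂ, α ≠ 0 ∧ β ≠ 0 ∧
    NormedSpace.exp ((Complex.I * (τ : ℂ)) • G.adjMatrix ℂ) *ᵥ (Pi.single a 1)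
      = α • (Pi.single a 1 : V → ℂ) + β • (Pi.single b 1 : V → ℂ)

section aux

variable {V : Type*} [Fintype V] [DecidableEq V] (G : SimpleGraph V) [DecidableRel G.Adj]

theorem rel_of_fr (a b : V) (τ : ℝ) (α β : ℂ)
    (h : NormedSpace.exp ((Complex.I * (τ : ℂ)) • G.adjMatrix ℂ) *ᵥ (Pi.single a 1)
      = α • (Pi.single a 1 : V → ℂ) + β • (Pi.single b 1 : V → ℂ)) :
    Pool.Agent.Q105.FR.Rel (G.adjMatrix ℝ) a b τ α β := by
  intro θ w hw
  set U := NormedSpace.exp ((Complex.I * (τ : ℂ)) • G.adjMatrix ℂ) with hU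
  have hsym : ((Complex.I * (τ : ℂ)) • G.adjMatrix ℂ).IsSymm :=
    (G.isSymm_adjMatrix).smul _
  have hUs : U.IsSymm := Matrix.IsSymm.exp hsym
  have hcw : (G.adjMatrix ℂ) *ᵥ (fun v => (w v : ℂ)) = (θ : ℂ) • (fun v => (w v : ℂ)) := by
    ext u
    have h1 : ∑ v, (G.adjMatrix ℝ) u v * w v = θ * w u := by
      have := congrFun hw u
      simpa [Matrix.mulVec, dotProduct] using this
    have h2 := congrArg (fun t : ℝ => (t : ℂ)) h1
    simp only [Complex.ofReal_sum, Complex.ofReal_mul] at h2
    have h3 : ((G.adjMatrix ℂ) *ᵥ (fun v => (w v : ℂ))) u = ∑ v, (G.adjMatrix ℂ) u v * w v := by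
      simp [Matrix.mulVec, dotProduct]
    rw [h3]
    have h4 : ∀ v, (((G.adjMatrix ℝ) u v : ℝ) : ℂ) = (G.adjMatrix ℂ) u v := by
      intro v; simp only [SimpleGraph.adjMatrix_apply]; split_ifs <;> simp
    simp only [h4] at h2
    rw [h2]; simp
  have hM : ((Complex.I * (τ : ℂ)) • G.adjMatrix ℂ) *ᵥ (fun v => (w v : ℂ))
      = ((τ * θ : ℝ) * Complex.I) • (fun v => (w v : ℂ)) := by
    rw [Matrix.smul_mulVec, hcw, smul_smul]
    congr 1
    push_cast; ring
  have hE := Pool.Agent.Q105.FR.exp_mulVec _ _ _ hM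
  have h5 := congrFun hE a
  simp only [Pi.smul_apply, smul_eq_mul] at h5
  rw [← h5]
  have h6 : ∀ v, U v a = α * (Pi.single a 1 : V → ℂ) v + β * (Pi.single b 1 : V → ℂ) v := by
    intro v
    have := congrFun h v
    rw [Matrix.mulVec_single_one] at this
    simpa using this
  have h7 : (U *ᵥ (fun v => (w v : ℂ))) a = ∑ v, U v a * w v := by
    simp only [Matrix.mulVec, dotProduct]
    exact Finset.sum_congr rfl fun v _ => by rw [hUs.apply]
  rw [h7]
  simp only [h6, add_mul, Finset.sum_add_distrib, mul_assoc, ← Finset.mul_sum]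
  simp [Pi.single_apply]

theorem card_walk_dist (hT : G.IsTree) (a b : V) :
    ((G.adjMatrix ℝ) ^ (G.dist a b)) a b = 1 := by
  rw [SimpleGraph.adjMatrix_pow_apply_eq_card_walk]
  obtain ⟨p, hp⟩ := hT.1.exists_walk_length_eq_dist a b
  have : Fintype.card {p : G.Walk a b | p.length = G.dist a b} = 1 := by
    rw [Fintype.card_eq_one_iff]
    refine ⟨⟨p, hp⟩, ?_⟩
    rintro ⟨q, hq⟩
    have h1 := (hT.2.subsingleton_path a b).elim ⟨q, q.isPath_of_length_eq_dist hq⟩
      ⟨p, p.isPath_of_length_eq_dist hp⟩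
    have h2 := congrArg Subtype.val h1
    exact Subtype.ext h2
  rw [this]; simp

end aux

/-- In a tree proper fractional revival occurs only between vertices at odd distance, and these are
always cospectral: the negated form of Q1. -/
theorem result {V : Type*} [Fintype V] [DecidableEq V] (T : SimpleGraph V) [DecidableRel T.Adj]
    (hT : T.IsTree) (a b : V) (hab : a ≠ b) (hFR : ProperFR T a b) :
    Odd (T.dist a b) ∧ Cospectral T a b := by
  obtain ⟨τ, hτ, α, β, hα, hβ, hU⟩ := hFR
  have hR := rel_of_fr T a b τ α β hU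
  have hsym : (T.adjMatrix ℝ).IsSymm := T.isSymm_adjMatrix
  obtain ⟨D⟩ := Pool.Agent.Q105.FR.exists_diag (T.adjMatrix ℝ) hsym
  let s : V → ℝ := fun v => (-1) ^ (T.dist a v)
  have hs : ∀ u, s u = 1 ∨ s u = -1 := fun u => neg_one_pow_eq_or ℝ _
  have hA : ∀ u v, s u = s v → (T.adjMatrix ℝ) u v = 0 := by
    intro u v huv
    rw [SimpleGraph.adjMatrix_apply, if_neg]
    intro hadj
    rcases hT.dist_eq_dist_add_one_of_adj a hadj with h | h
    · simp only [s] at huv
      rw [h, pow_succ] at huv
      have := hs v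
      simp only [s] at this
      rcases this with h1 | h1 <;> rw [h1] at huv <;> norm_num at huv
    · simp only [s] at huv
      rw [h, pow_succ] at huv
      have := hs u
      simp only [s] at this
      rcases this with h1 | h1 <;> rw [h1] at huv <;> norm_num at huv
  have ha : s a = 1 := by simp [s]
  have hodd : Odd (T.dist a b) := by
    rw [← Nat.not_even_iff_odd]
    intro heven
    have hb : s b = 1 := heven.neg_one_pow
    have hZ : ∀ k u v, ∃ z : ℤ, ((T.adjMatrix ℝ) ^ k) u v = z := by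
      intro k u v
      exact ⟨(Fintype.card {p : T.Walk u v | p.length = k} : ℤ), by
        rw [SimpleGraph.adjMatrix_pow_apply_eq_card_walk]; push_cast; rfl⟩
    exact Pool.Agent.Q105.FR.even_case (T.adjMatrix ℝ) hsym D hZ a b hab τ hτ α β hα hβ hR s hs hA ha hb
      (T.dist a b) (hT.1.pos_dist_of_ne hab) (card_walk_dist T hT a b)
  refine ⟨hodd, ?_⟩
  have hb : s b = -1 := hodd.neg_one_pow
  have hsq := Pool.Agent.Q105.FR.odd_case (T.adjMatrix ℝ) D a b τ α β hβ hR s hs hA ha hb
  have hchar := Pool.Agent.Q105.FR.charpoly_del_eq D a b hsq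
  have hmap : ∀ c : V, (((T.induce {v | v ≠ c}).adjMatrix ℤ).charpoly).map (Int.castRingHom ℝ)
      = (Pool.Agent.Q105.FR.del (T.adjMatrix ℝ) c).charpoly := by
    intro c
    rw [← Matrix.charpoly_map]
    congr 1
    ext i j
    simp only [Matrix.map_apply, Pool.Agent.Q105.FR.del, Matrix.submatrix_apply, SimpleGraph.adjMatrix_apply,
      SimpleGraph.comap_adj]
    split_ifs <;> simp_all
  have hinj : Function.Injective (Polynomial.map (Int.castRingHom ℝ)) :=
    Polynomial.map_injective _ Int.cast_injective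
  apply hinj
  rw [hmap a, hmap b, hchar]

end Pool.Agent.Results.MP_33c96f_co.TreeRevival
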